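import Mathlib
import Pool.Agent.H958.RL.Stm
import Pool.Graph.R_seed8.W571.RD.Pind

/-!
# Project RL, part UTAIL: large up-sets are unlikely
-/

set_option autoImplicit false

namespace Pool.Agent.H863.RL.Utail

open Finset
open scoped Classical
open Pool.Agent.W830.RD (Om gle Pr)
open Pool.Agent.W571.RD.Pind (EX ind ind_pos ind_neg fub EX_congr EX_mul EX_mul' EX_one Pr_eq)

noncomputable section

theorem EX_mono {α : Type} (p : ℝ) (hp : 0 < p) (hp1 : p < 1) (W : Finset α)
    (F G : Finset α → ℝ) (h : ∀ E ⊆ W, F E ≤ G E) : EX p W F ≤ EX p W G := by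
  unfold EX
  refine Finset.sum_le_sum fun E hE => ?_
  exact mul_le_mul_of_nonneg_left (h E (Finset.mem_powerset.1 hE))
    (mul_nonneg (pow_nonneg hp.le _) (pow_nonneg (by linarith) _))

theorem EX_add {α : Type} (p : ℝ) (W : Finset α) (F G : Finset α → ℝ) :
    EX p W (fun E => F E + G E) = EX p W F + EX p W G := by
  unfold EX
  rw [← Finset.sum_add_distrib]
  refine Finset.sum_congr rfl fun E _ => ?_
  ring

theorem EX_sum {α ι : Type} (p : ℝ) (W : Finset α) (s : Finset ι) (F : ι → Finset α → ℝ) :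
    EX p W (fun E => ∑ i ∈ s, F i E) = ∑ i ∈ s, EX p W (F i) := by
  unfold EX
  rw [Finset.sum_comm]
  refine Finset.sum_congr rfl fun E _ => ?_
  rw [Finset.mul_sum]

theorem EX_const {α : Type} (p : ℝ) (W : Finset α) (c : ℝ) : EX p W (fun _ => c) = c := by
  have h := EX_mul p W (fun _ => (1 : ℝ)) c
  simp only [EX_one, one_mul] at h
  exact h

theorem EX_mem {α : Type} [DecidableEq α] (p : ℝ) (W : Finset α) (e : α) (he : e ∈ W) :
    EX p W (fun E => ind (e ∈ E)) = p := by
  have hW : W = {e} ∪ (W \ {e}) :=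
    (Finset.union_sdiff_of_subset (Finset.singleton_subset_iff.2 he)).symm
  rw [hW, fub p _ _ Finset.disjoint_sdiff]
  have e1 : ∀ E1 ⊆ ({e} : Finset α), EX p (W \ {e}) (fun E2 => ind (e ∈ E1 ∪ E2)) =
      ind (e ∈ E1) := by
    intro E1 _
    rw [← EX_const p (W \ {e}) (ind (e ∈ E1))]
    refine EX_congr p _ _ _ fun E2 h2 => ?_
    have h3 : e ∉ E2 := fun h => (Finset.mem_sdiff.1 (h2 h)).2 (Finset.mem_singleton_self e)
    by_cases h : e ∈ E1
    · rw [ind_pos h, ind_pos (Finset.mem_union_left _ h)]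
    · rw [ind_neg h, ind_neg fun h4 => (Finset.mem_union.1 h4).elim h h3]
  rw [EX_congr p {e} _ _ e1]
  unfold EX
  have hps : ({e} : Finset α).powerset = {∅, {e}} := by
    ext s
    rw [Finset.mem_powerset, Finset.subset_singleton_iff, Finset.mem_insert,
      Finset.mem_singleton]
  have h1 : ind (e ∈ (∅ : Finset α)) = 0 := ind_neg (Finset.notMem_empty e)
  have h2 : ind (e ∈ ({e} : Finset α)) = 1 := ind_pos (Finset.mem_singleton_self e)
  rw [hps, Finset.sum_pair (Finset.singleton_ne_empty e).symm]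
  simp only [h1, h2, Finset.card_singleton, pow_one, Nat.sub_self, pow_zero, mul_one, mul_zero,
    zero_add]

variable {n : ℕ}

/-- The possible edges with upper endpoint below `t`. -/
def OmL (n t : ℕ) : Finset (Fin n × Fin n) := (Om n).filter (fun e => (e.2 : ℕ) < t)

/-- The possible edges with upper endpoint `t`. -/
def Rt (n t : ℕ) : Finset (Fin n × Fin n) := (Om n).filter (fun e => (e.2 : ℕ) = t)

/-- The elements above `x` below `t`. -/
def U (E : Finset (Fin n × Fin n)) (x : Fin n) (t : ℕ) : Finset (Fin n) :=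
  univ.filter (fun u => (u : ℕ) < t ∧ gle E x u)

theorem mem_U {E : Finset (Fin n × Fin n)} {x u : Fin n} {t : ℕ} :
    u ∈ U E x t ↔ (u : ℕ) < t ∧ gle E x u := by
  unfold U
  rw [mem_filter]
  exact ⟨fun h => h.2, fun h => ⟨mem_univ _, h⟩⟩

theorem mem_OmL {t : ℕ} {e : Fin n × Fin n} : e ∈ OmL n t ↔ e.1 < e.2 ∧ (e.2 : ℕ) < t := by
  unfold OmL Om
  rw [mem_filter, mem_filter]
  exact ⟨fun h => ⟨h.1.2, h.2⟩, fun h => ⟨⟨mem_univ _, h.1⟩, h.2⟩⟩

theorem mem_Rt {t : ℕ} {e : Fin n × Fin n} : e ∈ Rt n t ↔ e.1 < e.2 ∧ (e.2 : ℕ) = t := by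
  unfold Rt Om
  rw [mem_filter, mem_filter]
  exact ⟨fun h => ⟨h.1.2, h.2⟩, fun h => ⟨⟨mem_univ _, h.1⟩, h.2⟩⟩

theorem OmL_succ (t : ℕ) : OmL n (t + 1) = OmL n t ∪ Rt n t := by
  ext e
  rw [mem_union, mem_OmL, mem_OmL, mem_Rt, ← and_or_left]
  refine and_congr_right fun _ => ?_
  omega

theorem OmL_disj (t : ℕ) : Disjoint (OmL n t) (Rt n t) := by
  rw [Finset.disjoint_left]
  intro e h1 h2
  rw [mem_OmL] at h1
  rw [mem_Rt] at h2
  omega

theorem OmL_zero : OmL n 0 = ∅ := by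
  rw [Finset.eq_empty_iff_forall_notMem]
  intro e h
  rw [mem_OmL] at h
  omega

theorem OmL_top : OmL n n = Om n := by
  ext e
  rw [mem_OmL]
  unfold Om
  rw [mem_filter]
  exact ⟨fun h => ⟨mem_univ _, h.1⟩, fun h => ⟨h.2, e.2.2⟩⟩

theorem gle_low {t : ℕ} {E1 E2 : Finset (Fin n × Fin n)} (h1 : E1 ⊆ OmL n t) (h2 : E2 ⊆ Rt n t)
    {x u : Fin n} (h : gle (E1 ∪ E2) x u) : (u : ℕ) < t → gle E1 x u := by
  unfold gle at h ⊢
  induction h with
  | refl => exact fun _ => Relation.ReflTransGen.refl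
  | @tail b c _ hbc ih =>
    intro hc
    rcases mem_union.1 hbc with h | h
    · have h3 := mem_OmL.1 (h1 h)
      have h4 : (b : ℕ) < c := h3.1
      exact (ih (by omega)).tail h
    · have h3 := mem_Rt.1 (h2 h)
      have h4 : (c : ℕ) = t := h3.2
      omega

theorem U_step {t : ℕ} (ht : t < n) {E1 E2 : Finset (Fin n × Fin n)} (h1 : E1 ⊆ OmL n t)
    (h2 : E2 ⊆ Rt n t) {x : Fin n} (hx : (x : ℕ) ≠ t) {u : Fin n}
    (hu : u ∈ U (E1 ∪ E2) x (t + 1)) :
    u ∈ U E1 x t ∨ (u = ⟨t, ht⟩ ∧ ∃ v ∈ U E1 x t, (v, (⟨t, ht⟩ : Fin n)) ∈ E2) := by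
  rw [mem_U] at hu
  obtain ⟨hu1, hu2⟩ := hu
  rcases Nat.lt_or_ge (u : ℕ) t with h | h
  · left
    rw [mem_U]
    exact ⟨h, gle_low h1 h2 hu2 h⟩
  · right
    have hut : (u : ℕ) = t := by omega
    have hu3 : u = ⟨t, ht⟩ := Fin.ext hut
    refine ⟨hu3, ?_⟩
    unfold gle at hu2
    rcases Relation.ReflTransGen.cases_tail hu2 with h3 | ⟨b, h3, h4⟩
    · exfalso
      apply hx
      rw [← h3]
      exact hut
    · rcases mem_union.1 h4 with h5 | h5
      · have h6 := (mem_OmL.1 (h1 h5)).2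
        simp only at h6
        omega
      · have h6 := mem_Rt.1 (h2 h5)
        have h7 : (b : ℕ) < u := h6.1
        refine ⟨b, ?_, ?_⟩
        · rw [mem_U]
          exact ⟨by omega, gle_low h1 h2 h3 (by omega)⟩
        · rw [← hu3]
          exact h5

/-- The test function. -/
def A (r N : ℕ) : ℝ := (N.ascFactorial r : ℝ)

theorem A_nonneg (r N : ℕ) : 0 ≤ A r N := Nat.cast_nonneg _

theorem A_mono (r : ℕ) {N M : ℕ} (h : N ≤ M) : A r N ≤ A r M := by
  unfold A
  exact_mod_cast Nat.ascFactorial_le r h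

theorem A_step (r N : ℕ) : (N : ℝ) * (A r (N + 1) - A r N) = r * A r N := by
  have h := Nat.succ_ascFactorial N r
  have h' : (N : ℝ) * A r (N + 1) = (N + r) * A r N := by
    unfold A
    exact_mod_cast h
  linarith

theorem A_zero {r : ℕ} (hr : 1 ≤ r) : A r 0 = 0 := by
  obtain ⟨k, rfl⟩ : ∃ k, r = k + 1 := ⟨r - 1, by omega⟩
  unfold A
  rw [Nat.zero_ascFactorial]
  exact Nat.cast_zero

theorem A_one (r : ℕ) : A r 1 = (r.factorial : ℝ) := by
  unfold A
  rw [Nat.one_ascFactorial]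

theorem A_pow (r N : ℕ) : (N : ℝ) ^ r ≤ A r N := by
  unfold A
  exact_mod_cast Nat.pow_succ_le_ascFactorial N r

/-- One step of the process. -/
theorem step (p : ℝ) (hp : 0 < p) (hp1 : p < 1) (r t : ℕ) (ht : t < n) (x : Fin n)
    (hx : (x : ℕ) ≠ t) (E1 : Finset (Fin n × Fin n)) (h1 : E1 ⊆ OmL n t) :
    EX p (Rt n t) (fun E2 => A r (U (E1 ∪ E2) x (t + 1)).card) ≤
      A r (U E1 x t).card * (1 + r * p) := by
  have hD : 0 ≤ A r ((U E1 x t).card + 1) - A r (U E1 x t).card :=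
    sub_nonneg.2 (A_mono r (Nat.le_succ _))
  have hsum : ∀ E2 : Finset (Fin n × Fin n), 0 ≤ ∑ v ∈ U E1 x t,
      ind ((v, (⟨t, ht⟩ : Fin n)) ∈ E2) := by
    intro E2
    refine Finset.sum_nonneg fun v _ => ?_
    unfold ind
    split_ifs
    · exact zero_le_one
    · exact le_rfl
  have hpt : ∀ E2 ⊆ Rt n t, A r (U (E1 ∪ E2) x (t + 1)).card ≤ A r (U E1 x t).card +
      (A r ((U E1 x t).card + 1) - A r (U E1 x t).card) *
        ∑ v ∈ U E1 x t, ind ((v, (⟨t, ht⟩ : Fin n)) ∈ E2) := by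
    intro E2 h2
    by_cases hex : ∃ v ∈ U E1 x t, (v, (⟨t, ht⟩ : Fin n)) ∈ E2
    · have hc : (U (E1 ∪ E2) x (t + 1)).card ≤ (U E1 x t).card + 1 := by
        refine (Finset.card_le_card (t := insert (⟨t, ht⟩ : Fin n) (U E1 x t)) ?_).trans
          (Finset.card_insert_le _ _)
        intro u hu
        rw [Finset.mem_insert]
        rcases U_step ht h1 h2 hx hu with h | h
        · exact Or.inr h
        · exact Or.inl h.1
      have hs : (1 : ℝ) ≤ ∑ v ∈ U E1 x t, ind ((v, (⟨t, ht⟩ : Fin n)) ∈ E2) := by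
        obtain ⟨v, hv, hv2⟩ := hex
        have h3 := Finset.single_le_sum
          (f := fun v => ind ((v, (⟨t, ht⟩ : Fin n)) ∈ E2)) (fun w _ => by
            unfold ind
            split_ifs
            · exact zero_le_one
            · exact le_rfl) hv
        rw [ind_pos hv2] at h3
        exact h3
      calc A r (U (E1 ∪ E2) x (t + 1)).card ≤ A r ((U E1 x t).card + 1) := A_mono r hc
        _ = A r (U E1 x t).card + (A r ((U E1 x t).card + 1) - A r (U E1 x t).card) * 1 := by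
          ring
        _ ≤ _ := by
          have := mul_le_mul_of_nonneg_left hs hD
          linarith
    · have hc : (U (E1 ∪ E2) x (t + 1)).card ≤ (U E1 x t).card := by
        refine Finset.card_le_card ?_
        intro u hu
        rcases U_step ht h1 h2 hx hu with h | h
        · exact h
        · exact absurd h.2 hex
      have := mul_nonneg hD (hsum E2)
      have := A_mono r hc
      linarith
  refine (EX_mono p hp hp1 (Rt n t) _ _ hpt).trans ?_
  have e1 : EX p (Rt n t) (fun E2 => A r (U E1 x t).card +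
      (A r ((U E1 x t).card + 1) - A r (U E1 x t).card) *
        ∑ v ∈ U E1 x t, ind ((v, (⟨t, ht⟩ : Fin n)) ∈ E2)) =
      A r (U E1 x t).card + (A r ((U E1 x t).card + 1) - A r (U E1 x t).card) *
        ((U E1 x t).card * p) := by
    rw [EX_add, EX_const, EX_mul', EX_sum]
    have e2 : ∑ v ∈ U E1 x t, EX p (Rt n t) (fun E2 => ind ((v, (⟨t, ht⟩ : Fin n)) ∈ E2)) =
        ∑ v ∈ U E1 x t, p := by
      refine Finset.sum_congr rfl fun v hv => ?_
      refine EX_mem p (Rt n t) _ ?_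
      rw [mem_Rt]
      exact ⟨(mem_U.1 hv).1, rfl⟩
    rw [e2, Finset.sum_const, nsmul_eq_mul]
  rw [e1]
  have h3 := A_step r (U E1 x t).card
  have : A r (U E1 x t).card + (A r ((U E1 x t).card + 1) - A r (U E1 x t).card) *
        ((U E1 x t).card * p) = A r (U E1 x t).card +
      (((U E1 x t).card : ℝ) * (A r ((U E1 x t).card + 1) - A r (U E1 x t).card)) * p := by
    ring
  rw [this, h3]
  apply le_of_eq
  ring

theorem U_self {E : Finset (Fin n × Fin n)} (hE : E ⊆ Om n) (x : Fin n) :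
    U E x ((x : ℕ) + 1) = {x} := by
  ext u
  rw [mem_U, mem_singleton]
  constructor
  · rintro ⟨h1, h2⟩
    have h3 : x ≤ u := Pool.Agent.H958.RO.gle_le hE h2
    have h4 : (x : ℕ) ≤ u := h3
    exact Fin.ext (by omega)
  · rintro rfl
    exact ⟨Nat.lt_succ_self _, Relation.ReflTransGen.refl⟩

theorem bound (p : ℝ) (hp : 0 < p) (hp1 : p < 1) (r : ℕ) (hr : 1 ≤ r) (x : Fin n) :
    ∀ t : ℕ, t ≤ n → EX p (OmL n t) (fun E => A r (U E x t).card) ≤
      (r.factorial : ℝ) * (1 + r * p) ^ t := by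
  have hrp : (1 : ℝ) ≤ 1 + r * p := by
    have : (0 : ℝ) ≤ r * p := mul_nonneg (Nat.cast_nonneg _) hp.le
    linarith
  intro t
  induction t with
  | zero =>
    intro _
    have h0 : EX p (OmL n 0) (fun E => A r (U E x 0).card) = 0 := by
      rw [← EX_const p (OmL n 0) 0]
      refine EX_congr p _ _ _ fun E _ => ?_
      have : U E x 0 = ∅ := by
        rw [Finset.eq_empty_iff_forall_notMem]
        intro u hu
        rw [mem_U] at hu
        omega
      rw [this, Finset.card_empty, A_zero hr]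
    rw [h0]
    exact mul_nonneg (Nat.cast_nonneg _) (pow_nonneg (by linarith) _)
  | succ t ih =>
    intro ht
    have ht' : t < n := ht
    by_cases hx : (x : ℕ) = t
    · have h0 : EX p (OmL n (t + 1)) (fun E => A r (U E x (t + 1)).card) =
          (r.factorial : ℝ) := by
        rw [← EX_const p (OmL n (t + 1)) (r.factorial : ℝ)]
        refine EX_congr p _ _ _ fun E hE => ?_
        have h1 : E ⊆ Om n := hE.trans (Finset.filter_subset _ _)
        have h2 := U_self h1 x
        rw [hx] at h2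
        rw [h2, Finset.card_singleton, A_one]
      rw [h0]
      calc (r.factorial : ℝ) = (r.factorial : ℝ) * 1 := (mul_one _).symm
        _ ≤ _ := mul_le_mul_of_nonneg_left (one_le_pow₀ hrp) (Nat.cast_nonneg _)
    · rw [OmL_succ, fub p _ _ (OmL_disj t)]
      refine (EX_mono p hp hp1 (OmL n t) _ _ fun E1 h1 =>
        step p hp hp1 r t ht' x hx E1 h1).trans ?_
      rw [EX_mul, pow_succ, ← mul_assoc]
      exact mul_le_mul_of_nonneg_right (ih ht'.le) (by linarith)

theorem main : Pool.Agent.H958.RL.S_UTAIL := by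
  intro p n r m x hp hp1 hr hm
  have hm0 : (0 : ℝ) < (m : ℝ) ^ r := pow_pos (by exact_mod_cast hm) _
  rw [le_div_iff₀ hm0, Pr_eq, ← EX_mul]
  refine (EX_mono p hp hp1 (Om n) _ (fun E => A r (U E x n).card) fun E _ => ?_).trans ?_
  · have hU : (univ.filter (fun u => gle E x u)) = U E x n := by
      ext u
      rw [mem_U, mem_filter]
      exact ⟨fun h => ⟨u.2, h.2⟩, fun h => ⟨mem_univ _, h.2⟩⟩
    rw [hU]
    by_cases h : m ≤ (U E x n).card
    · rw [ind_pos h, one_mul]
      have h1 : (m : ℝ) ≤ ((U E x n).card : ℝ) := by exact_mod_cast h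
      exact (pow_le_pow_left₀ (Nat.cast_nonneg _) h1 r).trans (A_pow r _)
    · rw [ind_neg h, zero_mul]
      exact A_nonneg _ _
  · have h := bound p hp hp1 r hr x n le_rfl
    rw [OmL_top] at h
    exact h

end

end Pool.Agent.H863.RL.Utail
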